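import Pool.Agent.W952.LP.Stm

/-!
# The complexity of the existence of coded open sets
-/

set_option autoImplicit false

namespace Pool.Agent.W790.LP

open Pool.Agent.Helper227 Pool.Agent.H685R3 Pool.Agent.W952.LP

section

variable {α : Type*} [Primcodable α]

/-- codes of open sets -/
abbrev LL := List (ℕ × ℕ)
/-- codes of covers -/
abbrev PL := List (LL × LL)

theorem p_oS {P : α → PL} {t : α → ℕ} (hP : Primrec P) (ht : Primrec t) :
    Primrec fun a => oS (P a) (t a) :=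
  Primrec.fst.comp ((Primrec.list_getD (([], []) : LL × LL)).comp hP ht)

theorem p_oL {P : α → PL} {t : α → ℕ} (hP : Primrec P) (ht : Primrec t) :
    Primrec fun a => oL (P a) (t a) :=
  Primrec.snd.comp ((Primrec.list_getD (([], []) : LL × LL)).comp hP ht)

theorem p_eqc {f : α → ℕ} (hf : Primrec f) (c : ℕ) : PrimrecPred fun a => f a = c :=
  Primrec.eq.comp hf (Primrec.const c)

theorem p_modc {f : α → ℕ} (hf : Primrec f) (m c : ℕ) : PrimrecPred fun a => f a % m = c :=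
  Primrec.eq.comp (Primrec.nat_mod.comp hf (Primrec.const m)) (Primrec.const c)

theorem p_ge {f : α → ℕ} (hf : Primrec f) (c : ℕ) : PrimrecPred fun a => c ≤ f a :=
  Primrec.nat_le.comp (Primrec.const c) hf

theorem p_adj {s t : α → ℕ} (hs : Primrec s) (ht : Primrec t) :
    PrimrecPred fun a => Adj (s a) (t a) := by
  unfold Adj
  refine PrimrecPred.or (PrimrecPred.and (p_eqc hs 0) (p_modc ht 3 2)) (PrimrecPred.or
    (PrimrecPred.and (p_eqc hs 1) (PrimrecPred.and (p_modc ht 3 1) (p_ge ht 4)))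
    (PrimrecPred.and (p_ge hs 2) (PrimrecPred.and (Primrec.eq.comp ht (Primrec.succ.comp hs)) ?_)))
  exact (p_modc hs 3 1).not

theorem p_pos {f : α → ℕ} (hf : Primrec f) : PrimrecPred fun a => 0 < (f a).unpair.1 :=
  Primrec.nat_lt.comp (Primrec.const 0) (Primrec.fst.comp (Primrec.unpair.comp hf))

theorem p_bd {t : α → ℕ} (ht : Primrec t) {n : α → ℕ} (hn : Primrec n) :
    PrimrecPred fun a => t a < 3 * n a + 2 :=
  Primrec.nat_lt.comp ht (Primrec.nat_add.comp (Primrec.nat_mul.comp (Primrec.const 3) hn)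
    (Primrec.const 2))

variable {Lt : ℕ × ℕ × ℕ → Prop} (hLt : S1 Lt)
include hLt

theorem s_inO {k : α → ℕ} {L : α → LL} (hk : Primrec k) (hL : Primrec L) :
    S1 fun a => InO Lt (k a) (L a) := by
  unfold InO
  refine S1.ex (p := fun a (p : ℕ × ℕ) => p ∈ L a ∧ Lt (k a, p.1, p.2)) (S1.and (S1.of_prim ?_)
    (hLt.comp ((hk.comp Primrec.fst).pair ((Primrec.fst.comp Primrec.snd).pair
      (Primrec.snd.comp Primrec.snd)))))
  have h : PrimrecPred fun x : α × (ℕ × ℕ) => ∃ b ∈ L x.1, b = x.2 :=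
    PP.ex_mem (α := α × (ℕ × ℕ)) (f := fun x => L x.1) (p := fun x b => b = x.2)
      (Primrec.eq.comp Primrec.snd (Primrec.snd.comp Primrec.fst)) (hL.comp Primrec.fst)
  exact h.of_eq fun x => by simp

theorem s_ch {L : α → LL} {k l e : α → ℕ} {c : α → List ℕ} (hL : Primrec L) (hk : Primrec k)
    (hl : Primrec l) (he : Primrec e) (hc : Primrec c) :
    S1 fun a => IsCh Lt (L a) (k a) (l a) (e a) (c a) := by
  unfold IsCh
  have hlen : Primrec fun a => (c a).length := Primrec.list_length.comp hc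
  have hlen1 : Primrec fun a => (c a).length - 1 := Primrec.nat_sub.comp hlen (Primrec.const 1)
  have hget : Primrec fun x : α × ℕ => (c x.1).getD x.2 0 :=
    (Primrec.list_getD 0).comp (hc.comp Primrec.fst) Primrec.snd
  have hget1 : Primrec fun x : α × ℕ => (c x.1).getD (x.2 + 1) 0 :=
    (Primrec.list_getD 0).comp (hc.comp Primrec.fst) (Primrec.succ.comp Primrec.snd)
  refine S1.and (S1.of_prim (Primrec.nat_lt.comp (Primrec.const 0) hlen)) (S1.and (S1.of_prim ?_)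
    (S1.and (S1.of_prim ?_) (S1.and ?_ ?_)))
  · exact Primrec.eq.comp ((Primrec.list_getD 0).comp hc (Primrec.const 0)) hk
  · exact Primrec.eq.comp ((Primrec.list_getD 0).comp hc hlen1) hl
  · refine S1.all_lt (p := fun a j => Lt ((c a).getD j 0, (c a).getD (j + 1) 0, e a))
      (f := fun a => (c a).length - 1) ?_ hlen1
    exact hLt.comp (hget.pair (hget1.pair (he.comp Primrec.fst)))
  · refine S1.all_lt (p := fun a j => InO Lt ((c a).getD j 0) (L a))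
      (f := fun a => (c a).length) ?_ hlen
    exact s_inO hLt hget (hL.comp Primrec.fst)

end

/-- the parameters `n`, `P`, `u` -/
abbrev XX := (ℕ × PL) × ℕ

section

variable {Lt : ℕ × ℕ × ℕ → Prop} (hLt : S1 Lt)

theorem c_pos : SI (jump (jump zero)) fun x : XX => 0 < x.2.unpair.1 :=
  SI.of_prim (p_pos Primrec.snd)

include hLt

theorem c_cover : SI (jump (jump zero)) fun x : XX =>
    ∀ k, ∃ t < 3 * x.1.1 + 2, InO Lt k (oS x.1.2 t) := by
  have h1 : S1 fun y : XX × ℕ => ∃ t : ℕ, t < 3 * y.1.1.1 + 2 ∧ InO Lt y.2 (oS y.1.1.2 t) := by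
    refine S1.ex (p := fun (y : XX × ℕ) (t : ℕ) => t < 3 * y.1.1.1 + 2 ∧
      InO Lt y.2 (oS y.1.1.2 t)) (S1.and (S1.of_prim ?_) ?_)
    · exact p_bd Primrec.snd
        (Primrec.fst.comp (Primrec.fst.comp (Primrec.fst.comp Primrec.fst)))
    · exact s_inO hLt (Primrec.snd.comp Primrec.fst)
        (p_oS (Primrec.snd.comp (Primrec.fst.comp (Primrec.fst.comp Primrec.fst))) Primrec.snd)
  have h2 : SI (jump zero) fun y : XX × ℕ =>
      ¬ ∃ t : ℕ, t < 3 * y.1.1.1 + 2 ∧ InO Lt y.2 (oS y.1.1.2 t) :=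
    (SI.of_s1 (B := zero) h1).decide_jump.2
  have h3 : SI (jump zero) fun x : XX => ∃ k : ℕ,
      ¬ ∃ t : ℕ, t < 3 * x.1.1 + 2 ∧ InO Lt k (oS x.1.2 t) :=
    SI.ex (p := fun (x : XX) (k : ℕ) =>
      ¬ ∃ t : ℕ, t < 3 * x.1.1 + 2 ∧ InO Lt k (oS x.1.2 t)) h2
  exact h3.decide_jump.2.of_eq fun x => by push Not; rfl

theorem c_nonempty : SI (jump (jump zero)) fun x : XX =>
    ∀ t < 3 * x.1.1 + 2, ∃ k, InO Lt k (oS x.1.2 t) := by
  have h1 : S1 fun x : XX => ∀ t < 3 * x.1.1 + 2, ∃ k, InO Lt k (oS x.1.2 t) := by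
    refine S1.all_lt (p := fun (x : XX) t => ∃ k, InO Lt k (oS x.1.2 t))
      (f := fun x : XX => 3 * x.1.1 + 2) ?_ ?_
    · refine S1.ex (p := fun (y : XX × ℕ) (k : ℕ) => InO Lt k (oS y.1.1.2 y.2)) ?_
      exact s_inO hLt Primrec.snd
        (p_oS (Primrec.snd.comp (Primrec.fst.comp (Primrec.fst.comp Primrec.fst)))
          (Primrec.snd.comp Primrec.fst))
    · exact Primrec.nat_add.comp (Primrec.nat_mul.comp (Primrec.const 3)
        (Primrec.fst.comp Primrec.fst)) (Primrec.const 2)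
  exact SI.of_s1 h1

theorem c_adj : SI (jump (jump zero)) fun x : XX =>
    ∀ t < 3 * x.1.1 + 2, ∀ s < t, Adj s t → ∃ k, InO Lt k (oS x.1.2 s) ∧ InO Lt k (oS x.1.2 t) := by
  have h1 : S1 fun x : XX => ∀ t < 3 * x.1.1 + 2, ∀ s < t,
      (¬ Adj s t ∨ ∃ k, InO Lt k (oS x.1.2 s) ∧ InO Lt k (oS x.1.2 t)) := by
    refine S1.all_lt (p := fun (x : XX) t => ∀ s < t,
      (¬ Adj s t ∨ ∃ k, InO Lt k (oS x.1.2 s) ∧ InO Lt k (oS x.1.2 t)))
      (f := fun x : XX => 3 * x.1.1 + 2) ?_ ?_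
    · refine S1.all_lt (p := fun (y : XX × ℕ) s =>
        (¬ Adj s y.2 ∨ ∃ k, InO Lt k (oS y.1.1.2 s) ∧ InO Lt k (oS y.1.1.2 y.2)))
        (f := fun y : XX × ℕ => y.2) ?_ Primrec.snd
      refine S1.or (S1.of_prim (p_adj Primrec.snd (Primrec.snd.comp Primrec.fst)).not) ?_
      refine S1.ex (p := fun (z : (XX × ℕ) × ℕ) (k : ℕ) =>
        InO Lt k (oS z.1.1.1.2 z.2) ∧ InO Lt k (oS z.1.1.1.2 z.1.2)) (S1.and ?_ ?_)
      · exact s_inO hLt Primrec.snd (p_oS (Primrec.snd.comp (Primrec.fst.comp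
          (Primrec.fst.comp (Primrec.fst.comp Primrec.fst)))) (Primrec.snd.comp Primrec.fst))
      · exact s_inO hLt Primrec.snd (p_oS (Primrec.snd.comp (Primrec.fst.comp
          (Primrec.fst.comp (Primrec.fst.comp Primrec.fst))))
          (Primrec.snd.comp (Primrec.fst.comp Primrec.fst)))
    · exact Primrec.nat_add.comp (Primrec.nat_mul.comp (Primrec.const 3)
        (Primrec.fst.comp Primrec.fst)) (Primrec.const 2)
  exact (SI.of_s1 h1).of_eq fun x => by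
    refine forall_congr' fun t => forall_congr' fun _ => forall_congr' fun s =>
      forall_congr' fun _ => ?_
    exact imp_iff_not_or.symm

/-- the parameters `t`, `s`, `k`, `l` -/
abbrev Q4 := (ℕ × ℕ) × (ℕ × ℕ)

omit hLt in
theorem pr4 : Primrec (fun y : XX × Q4 => y.1.1.1) ∧ Primrec (fun y : XX × Q4 => y.1.1.2) ∧
    Primrec (fun y : XX × Q4 => y.1.2) ∧ Primrec (fun y : XX × Q4 => y.2.1.1) ∧
    Primrec (fun y : XX × Q4 => y.2.1.2) ∧ Primrec (fun y : XX × Q4 => y.2.2.1) ∧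
    Primrec (fun y : XX × Q4 => y.2.2.2) :=
  ⟨Primrec.fst.comp (Primrec.fst.comp Primrec.fst), Primrec.snd.comp (Primrec.fst.comp Primrec.fst),
    Primrec.snd.comp Primrec.fst, Primrec.fst.comp (Primrec.fst.comp Primrec.snd),
    Primrec.snd.comp (Primrec.fst.comp Primrec.snd), Primrec.fst.comp (Primrec.snd.comp Primrec.snd),
    Primrec.snd.comp (Primrec.snd.comp Primrec.snd)⟩

theorem c_nadj : SI (jump (jump zero)) fun x : XX =>
    ∀ t < 3 * x.1.1 + 2, ∀ s < t, ¬ Adj s t → ∀ k l, InO Lt k (oL x.1.2 s) →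
      InO Lt l (oL x.1.2 t) → ¬ Lt (k, l, x.2) := by
  obtain ⟨q1, q2, q3, q4, q5, q6, q7⟩ := pr4
  have h1 : S1 fun x : XX => ∃ q : Q4, q.1.1 < 3 * x.1.1 + 2 ∧ q.1.2 < q.1.1 ∧
      ¬ Adj q.1.2 q.1.1 ∧ InO Lt q.2.1 (oL x.1.2 q.1.2) ∧ InO Lt q.2.2 (oL x.1.2 q.1.1) ∧
      Lt (q.2.1, q.2.2, x.2) := by
    refine S1.ex (p := fun (x : XX) (q : Q4) => q.1.1 < 3 * x.1.1 + 2 ∧ q.1.2 < q.1.1 ∧
      ¬ Adj q.1.2 q.1.1 ∧ InO Lt q.2.1 (oL x.1.2 q.1.2) ∧ InO Lt q.2.2 (oL x.1.2 q.1.1) ∧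
      Lt (q.2.1, q.2.2, x.2)) ?_
    refine S1.and (S1.of_prim (p_bd q4 q1)) (S1.and (S1.of_prim (Primrec.nat_lt.comp q5 q4))
      (S1.and (S1.of_prim (p_adj q5 q4).not) (S1.and (s_inO hLt q6 (p_oL q2 q5))
        (S1.and (s_inO hLt q7 (p_oL q2 q4)) (hLt.comp (q6.pair (q7.pair q3)))))))
  have h2 := (SI.of_s1 (B := zero) h1).decide_jump.2
  refine h2.decide_jump.1.of_eq fun x => ?_
  constructor
  · intro h t ht s hs hA k l hk hl hLt'
    exact h ⟨((t, s), (k, l)), ht, hs, hA, hk, hl, hLt'⟩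
  · rintro h ⟨⟨⟨t, s⟩, ⟨k, l⟩⟩, ht, hs, hA, hk, hl, hLt'⟩
    exact h t ht s hs hA k l hk hl hLt'

theorem c_chain : SI (jump (jump zero)) fun x : XX =>
    ∀ t < 3 * x.1.1 + 2, ∀ k l e, InO Lt k (oS x.1.2 t) → InO Lt l (oS x.1.2 t) →
      0 < e.unpair.1 → ∃ c, IsCh Lt (oL x.1.2 t) k l e c := by
  obtain ⟨q1, q2, q3, q4, q5, q6, q7⟩ := pr4
  have h0 : S1 fun y : XX × Q4 => ∃ c : List ℕ, IsCh Lt (oL y.1.1.2 y.2.1.1) y.2.2.1 y.2.2.2
      y.2.1.2 c := by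
    refine S1.ex (p := fun (y : XX × Q4) (c : List ℕ) => IsCh Lt (oL y.1.1.2 y.2.1.1) y.2.2.1
      y.2.2.2 y.2.1.2 c) ?_
    exact s_ch hLt (p_oL (q2.comp Primrec.fst) (q4.comp Primrec.fst)) (q6.comp Primrec.fst)
      (q7.comp Primrec.fst) (q5.comp Primrec.fst) Primrec.snd
  have h0' := (SI.of_s1 (B := zero) h0).decide_jump.2
  have h1 : SI (jump zero) fun x : XX => ∃ q : Q4, (q.1.1 < 3 * x.1.1 + 2 ∧
      InO Lt q.2.1 (oS x.1.2 q.1.1) ∧ InO Lt q.2.2 (oS x.1.2 q.1.1) ∧ 0 < q.1.2.unpair.1) ∧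
      ¬ ∃ c : List ℕ, IsCh Lt (oL x.1.2 q.1.1) q.2.1 q.2.2 q.1.2 c := by
    refine SI.ex (p := fun (x : XX) (q : Q4) => (q.1.1 < 3 * x.1.1 + 2 ∧
      InO Lt q.2.1 (oS x.1.2 q.1.1) ∧ InO Lt q.2.2 (oS x.1.2 q.1.1) ∧ 0 < q.1.2.unpair.1) ∧
      ¬ ∃ c : List ℕ, IsCh Lt (oL x.1.2 q.1.1) q.2.1 q.2.2 q.1.2 c) (SI.and (SI.of_s1 ?_) h0')
    exact S1.and (S1.of_prim (p_bd q4 q1)) (S1.and (s_inO hLt q6 (p_oS q2 q4))
      (S1.and (s_inO hLt q7 (p_oS q2 q4)) (S1.of_prim (p_pos q5))))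
  refine h1.decide_jump.2.of_eq fun x => ?_
  constructor
  · intro h t ht k l e hk hl he
    by_contra hc
    exact h ⟨((t, e), (k, l)), ⟨ht, hk, hl, he⟩, hc⟩
  · rintro h ⟨⟨⟨t, e⟩, ⟨k, l⟩⟩, ⟨ht, hk, hl, he⟩, hc⟩
    exact hc (h t ht k l e hk hl he)

end

theorem cx : S_cx := by
  intro Lt hLt
  have h : SI (jump (jump zero)) fun x : XX => Cond Lt x.1.1 x.1.2 x.2 := by
    refine (SI.and c_pos (SI.and (c_cover hLt) (SI.and (c_nonempty hLt) (SI.and (c_adj hLt)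
      (SI.and (c_nadj hLt) (c_chain hLt)))))).of_eq fun x => ?_
    constructor
    · rintro ⟨h1, h2, h3, h4, h5, h6⟩
      exact ⟨h1, h2, h3, h4, h5, h6⟩
    · rintro ⟨h1, h2, h3, h4, h5, h6⟩
      exact ⟨h1, h2, h3, h4, h5, h6⟩
  refine SI.ex (p := fun (n : ℕ) (P : PL) => ∃ u : ℕ, Cond Lt n P u) ?_
  exact SI.ex (p := fun (y : ℕ × PL) (u : ℕ) => Cond Lt y.1 y.2 u) h

end Pool.Agent.W790.LP
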