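import Pool.Agent.W297.LP.Stm

/-!
Project LP, part MOON: the inequality of Moon and Moser by double counting.
-/

set_option autoImplicit false

open Finset

namespace Pool.Agent.W790.LP

open Pool.Agent.W297.LP

section
variable {V : Type} [Fintype V]

open Classical in
/-- the vertices which extend `A` -/
noncomputable def xt (W : V → V → ℝ) (D : Finset V) {s : ℕ} (A : Fin s → V) : Finset V :=
  D.filter (fun v => ∀ i, W (A i) v = 1)

theorem mem_ins {W : V → V → ℝ} (hW : Ker W) (D : Finset V) {s : ℕ} (i : Fin (s + 1)) (x : V)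
    (A : Fin s → V) : (i.insertNth x A : Fin (s + 1) → V) ∈ cl W D (s + 1) ↔
      A ∈ cl W D s ∧ x ∈ xt W D A := by
  classical
  unfold cl xt
  simp only [mem_filter, mem_univ, true_and]
  rw [Fin.forall_iff_succAbove i]
  simp only [Fin.insertNth_apply_same, Fin.insertNth_apply_succAbove]
  constructor
  · rintro ⟨⟨h1, h2⟩, h3⟩
    refine ⟨⟨h2, fun j l hjl => ?_⟩, h1, fun j => ?_⟩
    · have := h3 (i.succAbove j) (i.succAbove l) (fun h => hjl (Fin.succAbove_right_injective h))
      simpa only [Fin.insertNth_apply_succAbove] using this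
    · have := h3 (i.succAbove j) i (Fin.succAbove_ne i j)
      simpa only [Fin.insertNth_apply_succAbove, Fin.insertNth_apply_same] using this
  · rintro ⟨⟨h1, h2⟩, h3, h4⟩
    refine ⟨⟨h3, h1⟩, ?_⟩
    rw [Fin.forall_iff_succAbove i]
    constructor
    · rw [Fin.forall_iff_succAbove i]
      refine ⟨fun h => absurd rfl h, fun j _ => ?_⟩
      rw [Fin.insertNth_apply_same, Fin.insertNth_apply_succAbove, hW.symm]
      exact h4 j
    · intro j
      rw [Fin.forall_iff_succAbove i]
      refine ⟨fun _ => ?_, fun l hjl => ?_⟩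
      · rw [Fin.insertNth_apply_same, Fin.insertNth_apply_succAbove]
        exact h4 j
      · rw [Fin.insertNth_apply_succAbove, Fin.insertNth_apply_succAbove]
        exact h2 j l (fun h => hjl (by rw [h]))

theorem sum_cl {W : V → V → ℝ} (hW : Ker W) (D : Finset V) {s : ℕ} (i : Fin (s + 1))
    (F : (Fin (s + 1) → V) → ℕ) : ∑ K ∈ cl W D (s + 1), F K =
      ∑ A ∈ cl W D s, ∑ x ∈ xt W D A, F (i.insertNth x A) := by
  classical
  have h1 : ∑ K ∈ cl W D (s + 1), F K =
      ∑ K : Fin (s + 1) → V, if K ∈ cl W D (s + 1) then F K else 0 := by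
    rw [Finset.sum_ite_mem, Finset.univ_inter]
  rw [h1, ← (Fin.insertNthEquiv (fun _ => V) i).sum_comp, Fintype.sum_prod_type_right]
  have h2 : ∑ A ∈ cl W D s, ∑ x ∈ xt W D A, F (i.insertNth x A) =
      ∑ A : Fin s → V, if A ∈ cl W D s then ∑ x ∈ xt W D A, F (i.insertNth x A) else 0 := by
    rw [Finset.sum_ite_mem, Finset.univ_inter]
  rw [h2]
  refine Finset.sum_congr rfl fun A _ => ?_
  by_cases hA : A ∈ cl W D s
  · rw [if_pos hA]
    have h3 : ∑ x ∈ xt W D A, F (i.insertNth x A) =
        ∑ x : V, if x ∈ xt W D A then F (i.insertNth x A) else 0 := by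
      rw [Finset.sum_ite_mem, Finset.univ_inter]
    rw [h3]
    refine Finset.sum_congr rfl fun x _ => ?_
    have e : (Fin.insertNthEquiv (fun _ => V) i) (x, A) = i.insertNth x A := rfl
    rw [e]
    by_cases hx : x ∈ xt W D A
    · rw [if_pos hx, if_pos ((mem_ins hW D i x A).2 ⟨hA, hx⟩)]
    · rw [if_neg hx, if_neg (fun h => hx ((mem_ins hW D i x A).1 h).2)]
  · rw [if_neg hA]
    refine Finset.sum_eq_zero fun x _ => ?_
    have e : (Fin.insertNthEquiv (fun _ => V) i) (x, A) = i.insertNth x A := rfl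
    rw [e, if_neg (fun h => hA ((mem_ins hW D i x A).1 h).1)]

theorem card_cl {W : V → V → ℝ} (hW : Ker W) (D : Finset V) (s : ℕ) :
    (cl W D (s + 1)).card = ∑ A ∈ cl W D s, (xt W D A).card := by
  rw [Finset.card_eq_sum_ones, sum_cl hW D 0]
  refine Finset.sum_congr rfl fun A _ => ?_
  rw [Finset.card_eq_sum_ones]

open Classical in
theorem sum_sq {W : V → V → ℝ} (hW : Ker W) (D : Finset V) (s : ℕ) (i : Fin (s + 1)) :
    ∑ A ∈ cl W D s, (xt W D A).card ^ 2 =
      ∑ K ∈ cl W D (s + 1), (D.filter (fun v => ∀ j, j ≠ i → W (K j) v = 1)).card := by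
  rw [sum_cl hW D i]
  refine Finset.sum_congr rfl fun A _ => ?_
  have h : ∀ x ∈ xt W D A,
      (D.filter (fun v => ∀ j, j ≠ i → W ((i.insertNth x A : Fin (s + 1) → V) j) v = 1)).card =
      (xt W D A).card := by
    intro x _
    congr 1
    unfold xt
    refine Finset.filter_congr fun v _ => ?_
    rw [Fin.forall_iff_succAbove i]
    simp only [Fin.insertNth_apply_succAbove, ne_eq, not_true_eq_false, false_imp_iff, true_and,
      Fin.succAbove_ne, not_false_eq_true, true_imp_iff]
  rw [Finset.sum_congr rfl h, Finset.sum_const, smul_eq_mul, sq]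

open Classical in
theorem count_le (W : V → V → ℝ) (D : Finset V) (s : ℕ) (K : Fin (s + 1) → V) :
    ∑ i : Fin (s + 1), (D.filter (fun v => ∀ j, j ≠ i → W (K j) v = 1)).card ≤
      D.card + s * (xt W D K).card := by
  have h1 : ∀ i : Fin (s + 1), (D.filter (fun v => ∀ j, j ≠ i → W (K j) v = 1)).card =
      ∑ v ∈ D, if (∀ j, j ≠ i → W (K j) v = 1) then 1 else 0 := fun i => Finset.card_filter _ _
  have h2 : D.card + s * (xt W D K).card =
      ∑ v ∈ D, (1 + s * if (∀ j, W (K j) v = 1) then 1 else 0) := by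
    rw [Finset.sum_add_distrib, ← Finset.mul_sum, ← Finset.card_eq_sum_ones]
    unfold xt
    rw [Finset.card_filter]
  rw [Finset.sum_congr rfl fun i _ => h1 i, Finset.sum_comm, h2]
  refine Finset.sum_le_sum fun v _ => ?_
  rw [← Finset.card_filter]
  by_cases hv : ∀ j, W (K j) v = 1
  · rw [if_pos hv, mul_one]
    refine (Finset.card_filter_le _ _).trans ?_
    rw [Finset.card_univ, Fintype.card_fin, add_comm]
  · rw [if_neg hv, mul_zero, add_zero]
    push Not at hv
    obtain ⟨w, hw⟩ := hv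
    refine (Finset.card_le_card (t := {w}) ?_).trans (Finset.card_singleton _).le
    intro i hi
    rw [Finset.mem_filter] at hi
    rw [Finset.mem_singleton]
    by_contra hne
    exact hw (hi.2 w (Ne.symm hne))

theorem moonN {W : V → V → ℝ} (hW : Ker W) (D : Finset V) (s : ℕ) :
    (s + 1) * (cl W D (s + 1)).card ^ 2 ≤
      (cl W D s).card * (D.card * (cl W D (s + 1)).card + s * (cl W D (s + 2)).card) := by
  classical
  have h1 : (cl W D (s + 1)).card ^ 2 ≤
      (cl W D s).card * ∑ A ∈ cl W D s, (xt W D A).card ^ 2 := by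
    rw [card_cl hW D s]
    exact sq_sum_le_card_mul_sum_sq
  have h2 : (s + 1) * ∑ A ∈ cl W D s, (xt W D A).card ^ 2 ≤
      D.card * (cl W D (s + 1)).card + s * (cl W D (s + 2)).card := by
    have e1 : (s + 1) * ∑ A ∈ cl W D s, (xt W D A).card ^ 2 =
        ∑ i : Fin (s + 1), ∑ K ∈ cl W D (s + 1),
          (D.filter (fun v => ∀ j, j ≠ i → W (K j) v = 1)).card := by
      rw [← Finset.sum_congr rfl fun i _ => sum_sq hW D s i, Finset.sum_const, Finset.card_univ,
        Fintype.card_fin, smul_eq_mul]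
    rw [e1, Finset.sum_comm]
    refine (Finset.sum_le_sum fun K _ => count_le W D s K).trans ?_
    rw [Finset.sum_add_distrib, ← Finset.mul_sum, ← card_cl hW D (s + 1), Finset.sum_const,
      smul_eq_mul, mul_comm]
  calc (s + 1) * (cl W D (s + 1)).card ^ 2
      ≤ (s + 1) * ((cl W D s).card * ∑ A ∈ cl W D s, (xt W D A).card ^ 2) :=
        Nat.mul_le_mul_left _ h1
    _ = (cl W D s).card * ((s + 1) * ∑ A ∈ cl W D s, (xt W D A).card ^ 2) := by ring
    _ ≤ _ := Nat.mul_le_mul_left _ h2

end

theorem moon : SMoon := by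
  intro V _ W hW D s
  exact_mod_cast moonN hW D s

end Pool.Agent.W790.LP
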